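import Pool.Agent.Helper76.P13.StC

/-!
# Project P13 (levels `13^n`), module DIME: the dimension of `subE`

Adapted from `Pool/Agent/Helper45/P13/M_DIME.lean`.
-/

set_option autoImplicit false

namespace Pool.Agent.Helper9.P13

open Pool.Agent.Helper14.CV (Homog EqC act Tl)
open Pool.Agent.Helper28.WK (SymP)
open Pool.Agent.Helper14.W5 (NewSymP NSP)
open Pool.Agent.Helper76.P13

section lin

variable {W W' : Type} [AddCommGroup W] [Module ℂ W] [FiniteDimensional ℂ W] [AddCommGroup W']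
  [Module ℂ W']

private theorem rn (f : W →ₗ[ℂ] W') (V : Submodule ℂ W) :
    Module.finrank ℂ (V.map f) + Module.finrank ℂ ↥(V ⊓ LinearMap.ker f) =
      Module.finrank ℂ V := by
  have h := LinearMap.finrank_range_add_finrank_ker (f.domRestrict V)
  rw [LinearMap.range_domRestrict, LinearMap.ker_domRestrict] at h
  have h2 : Module.finrank ℂ ↥((LinearMap.ker f).comap V.subtype) =
      Module.finrank ℂ ↥(V ⊓ LinearMap.ker f) := by
    rw [← Submodule.map_comap_subtype, Submodule.finrank_map_subtype_eq]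
  rw [h2] at h
  exact h

end lin

section lin2

variable {W W' : Type} [AddCommGroup W] [Module ℂ W] [FiniteDimensional ℂ W] [AddCommGroup W']
  [Module ℂ W'] [FiniteDimensional ℂ W']

private theorem fr_prod (V : Submodule ℂ W) (V' : Submodule ℂ W') :
    Module.finrank ℂ ↥(V.prod V') = Module.finrank ℂ V + Module.finrank ℂ V' := by
  have h1 : V.prod V' = LinearMap.range (V.subtype.prodMap V'.subtype) := by
    rw [LinearMap.range_prodMap, Submodule.range_subtype, Submodule.range_subtype]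
  rw [h1, LinearMap.finrank_range_of_inj, Module.finrank_prod]
  rintro ⟨a, b⟩ ⟨a', b'⟩ h
  simp only [LinearMap.prodMap_apply, Submodule.subtype_apply, Prod.mk.injEq,
    SetLike.coe_eq_coe] at h
  rw [h.1, h.2]

end lin2

private theorem pw0 {m : ℕ} (hm : 1 ≤ m) : (13 : ZMod (13 ^ m)) * 13 ^ (m - 1) = 0 := by
  rw [← pow_succ', Nat.sub_add_cancel hm]
  have h3 := ZMod.natCast_self (13 ^ m)
  push_cast at h3
  exact h3

private theorem red {m : ℕ} (hm : 1 ≤ m) (t : ℤ) :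
    (t : ZMod (13 ^ m)) * 13 ^ (m - 1) = ((t : ZMod 13).val : ZMod (13 ^ m)) * 13 ^ (m - 1) := by
  have h1 : ((t : ZMod 13).val : ℤ) = t % 13 := by
    rw [ZMod.val_intCast]
    norm_num
  have h2 : (((t : ZMod 13).val : ℕ) : ZMod (13 ^ m)) = ((t % 13 : ℤ) : ZMod (13 ^ m)) := by
    rw [← h1]
    push_cast
    rfl
  rw [h2]
  have h3 : t = t % 13 + 13 * (t / 13) := (Int.emod_add_mul_ediv t 13).symm
  have h4 : (t : ZMod (13 ^ m)) = ((t % 13 : ℤ) : ZMod (13 ^ m)) + 13 * ((t / 13 : ℤ) : ZMod (13 ^ m)) := by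
    conv_lhs => rw [h3]
    push_cast
    ring
  rw [h4]
  linear_combination ((t / 13 : ℤ) : ZMod (13 ^ m)) * pw0 hm

private theorem sum_zmod (g : ℕ → ℂ) :
    ∑ i ∈ Finset.range 13, g i = ∑ z : ZMod 13, g z.val := by
  have : ∀ h : ZMod 13 → ℂ, ∑ z : ZMod 13, h z = ∑ i : Fin 13, h i := fun h => rfl
  rw [Finset.sum_range, this]
  rfl

private theorem sum_s {m : ℕ} (hm : 1 ≤ m) (s : ℤ) (hs : ¬ (13 : ℤ) ∣ s)
    (g : ZMod (13 ^ m) → ℂ) :
    ∑ i ∈ Finset.range 13, g (s * ((i : ZMod (13 ^ m)) * 13 ^ (m - 1))) =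
      ∑ i ∈ Finset.range 13, g ((i : ZMod (13 ^ m)) * 13 ^ (m - 1)) := by
  have hf : Fact (Nat.Prime 13) := ⟨by norm_num⟩
  have hs0 : (s : ZMod 13) ≠ 0 := by
    intro h
    exact hs ((ZMod.intCast_zmod_eq_zero_iff_dvd s 13).1 h)
  rw [sum_zmod (fun i => g (s * ((i : ZMod (13 ^ m)) * 13 ^ (m - 1)))),
    sum_zmod (fun i => g ((i : ZMod (13 ^ m)) * 13 ^ (m - 1)))]
  refine Fintype.sum_equiv (Equiv.mulLeft₀ (s : ZMod 13) hs0) _ _ fun z => ?_
  have h1 := red hm (s * (z.val : ℤ))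
  have h2 : ((s * (z.val : ℤ) : ℤ) : ZMod 13) = (s : ZMod 13) * z := by
    push_cast
    rw [ZMod.natCast_zmod_val]
  rw [h2] at h1
  change g (s * ((z.val : ZMod (13 ^ m)) * 13 ^ (m - 1))) =
    g ((((s : ZMod 13) * z).val : ZMod (13 ^ m)) * 13 ^ (m - 1))
  rw [← h1]
  congr 1
  push_cast
  ring

private theorem anti_s {m : ℕ} (hm : 1 ≤ m) {F : Pt m → ℂ} (hF : F ∈ anti13 m) (s : ℤ)
    (hs : ¬ (13 : ℤ) ∣ s) (x y : ZMod (13 ^ m)) :
    ∑ i ∈ Finset.range 13, F (x + s * (i * 13 ^ (m - 1)), y) = 0 ∧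
      ∑ i ∈ Finset.range 13, F (x, y + s * (i * 13 ^ (m - 1))) = 0 := by
  obtain ⟨h1, h2⟩ := hF (x, y)
  constructor
  · rw [sum_s hm s hs (fun t => F (x + t, y))]
    exact h1
  · rw [sum_s hm s hs (fun t => F (x, y + t))]
    exact h2

private theorem dv_step {m : ℕ} (hm : 1 ≤ m) {s : ℤ} {φ : ZMod (13 ^ m) → ZMod (13 ^ m)}
    (h : Dv s φ) (x : ZMod (13 ^ m)) (i : ℕ) :
    φ (x + i * 13 ^ (m - 1)) = φ x + s * (i * 13 ^ (m - 1)) := by
  have h1 := h (m - 1) (x + i * 13 ^ (m - 1)) x ⟨i, by ring⟩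
  have h2 : (13 : ZMod (13 ^ m)) ^ (m - 1 + 1) = 0 := by
    rw [Nat.sub_add_cancel hm]
    have h3 := ZMod.natCast_self (13 ^ m)
    push_cast at h3
    exact h3
  rw [h2, zero_dvd_iff] at h1
  linear_combination h1

private theorem anti_comp {m n : ℕ} (hm : 1 ≤ m) {r : Pt m → Pt m} (hr : Ty n r) {F : Pt m → ℂ}
    (hF : F ∈ anti13 m) : (fun p => F (r p)) ∈ anti13 m := by
  rcases hr with ⟨_, s, s', φ, φ', hs, _, hs', _, hφ, hφ', hr⟩ | ⟨_, s, s', ψ, ψ', hs, hs', hψ, hψ', hr⟩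
  · intro p
    simp only [hr, dv_step hm hφ, dv_step hm hφ']
    exact ⟨(anti_s hm hF s hs (φ p.1) (φ' p.2)).1, (anti_s hm hF s' hs' (φ p.1) (φ' p.2)).2⟩
  · intro p
    simp only [hr, dv_step hm hψ, dv_step hm hψ']
    exact ⟨(anti_s hm hF s' hs' (ψ p.2) (ψ' p.1)).2, (anti_s hm hF s hs (ψ p.2) (ψ' p.1)).1⟩


private theorem anti_tw {m : ℕ} (hm : 1 ≤ m) {r : Pt m → Pt m} (hr : Tw r) {F : Pt m → ℂ}
    (hF : F ∈ anti13 m) : (fun p => F (r p)) ∈ anti13 m := by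
  obtain ⟨s, s', φ, φ', hs, hs', hφ, hφ', hr⟩ := hr
  intro p
  simp only [hr, dv_step hm hφ, dv_step hm hφ']
  exact ⟨(anti_s hm hF s hs (φ p.1) (φ' p.2)).1, (anti_s hm hF s' hs' (φ p.1) (φ' p.2)).2⟩

private theorem n1 : (((-1 : ℤ) : ℂ)) = -1 := by push_cast; rfl
private theorem p1 : (((1 : ℤ) : ℂ)) = 1 := by push_cast; rfl

/-- The four relations as linear maps. -/
private def K1 {m : ℕ} : Fn11 m →ₗ[ℂ] (Pt m → ℂ) where
  toFun F p := alt ng sw F.1.1.1.1 p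
  map_add' F F' := by
    funext p
    simp only [alt, Prod.fst_add, Pi.add_apply]
    ring
  map_smul' c F := by
    funext p
    simp only [alt, Prod.smul_fst, Pi.smul_apply, smul_eq_mul, RingHom.id_apply]
    ring

private def K2 {m : ℕ} : Fn11 m →ₗ[ℂ] (Pt m → ℂ) where
  toFun F p := alt (dR 1) c6 F.1.2.1.1 p
  map_add' F F' := by
    funext p
    simp only [alt, Prod.fst_add, Prod.snd_add, Pi.add_apply]
    ring
  map_smul' c F := by
    funext p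
    simp only [alt, Prod.smul_fst, Prod.smul_snd, Pi.smul_apply, smul_eq_mul, RingHom.id_apply]
    ring

private def K3 {m : ℕ} : Fn11 m →ₗ[ℂ] (Pt m → ℂ) where
  toFun F p := sm6 cT cU (fun p => F.1.1.1.1 p - F.1.1.1.2 p - F.1.2.1.2 p) p
  map_add' F F' := by
    funext p
    simp only [sm6, Prod.fst_add, Prod.snd_add, Pi.add_apply]
    ring
  map_smul' c F := by
    funext p
    simp only [sm6, Prod.smul_fst, Prod.smul_snd, Pi.smul_apply, smul_eq_mul, RingHom.id_apply]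
    ring

private def K4 {m : ℕ} : Fn11 m →ₗ[ℂ] (Pt m → ℂ) where
  toFun F p := sm4 cQ cR (wwF F.1.1.1.2 F.1.1.2.1 F.1.1.2.2 F.1.2.1.1 F.1.2.1.2 F.1.2.2.1 F.1.2.2.2 F.2.1.1 F.2.1.2 F.2.2) p
  map_add' F F' := by
    funext p
    simp only [sm4, wwF, hhF, eeF, f3F, Prod.fst_add, Prod.snd_add, Pi.add_apply]
    ring
  map_smul' c F := by
    funext p
    simp only [sm4, wwF, hhF, eeF, f3F, Prod.smul_fst, Prod.smul_snd, Pi.smul_apply, smul_eq_mul,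
      RingHom.id_apply]
    ring

private theorem K1_apply {m : ℕ} (F : Fn11 m) (p : Pt m) : K1 F p = alt ng sw F.1.1.1.1 p := rfl

private theorem K2_apply {m : ℕ} (F : Fn11 m) (p : Pt m) : K2 F p = alt (dR 1) c6 F.1.2.1.1 p := rfl

private theorem K3_apply {m : ℕ} (F : Fn11 m) (p : Pt m) : K3 F p =
    sm6 cT cU (fun p => F.1.1.1.1 p - F.1.1.1.2 p - F.1.2.1.2 p) p := rfl

private theorem K4_apply {m : ℕ} (F : Fn11 m) (p : Pt m) : K4 F p =
    sm4 cQ cR (wwF F.1.1.1.2 F.1.1.2.1 F.1.1.2.2 F.1.2.1.1 F.1.2.1.2 F.1.2.2.1 F.1.2.2.2 F.2.1.1 F.2.1.2 F.2.2) p := rfl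

private theorem f3_mem {m : ℕ} (hm : 1 ≤ m) (h9 : Ty 1 (c9 : Pt m → Pt m)) (hg : Tw (gM : Pt m → Pt m))
    {F2 F4 F5 A D M : Pt m → ℂ} (h2 : F2 ∈ anti13 m) (h4 : F4 ∈ anti13 m) (h5 : F5 ∈ anti13 m)
    (hA : A ∈ anti13 m) (hD : D ∈ anti13 m) (hM : M ∈ anti13 m) : f3F F2 F4 F5 A D M ∈ anti13 m := by
  have e : f3F F2 F4 F5 A D M = F2 - A - M - D - (fun p => (fun p => F4 (c9 p)) (gM p)) +
    (fun p => (fun p => F5 (c9 p)) (gM p)) := rfl
  rw [e]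
  exact Submodule.add_mem _ (Submodule.sub_mem _ (Submodule.sub_mem _ (Submodule.sub_mem _
    (Submodule.sub_mem _ h2 hA) hM) hD) (anti_tw hm hg (anti_comp hm h9 h4)))
    (anti_tw hm hg (anti_comp hm h9 h5))

private theorem ee_mem {m : ℕ} {F2 F4 F5 A C D M : Pt m → ℂ} (h3 : f3F F2 F4 F5 A D M ∈ anti13 m)
    (h4 : F4 ∈ anti13 m) (hC : C ∈ anti13 m) : eeF F2 F4 F5 A C D M ∈ anti13 m := by
  have e : eeF F2 F4 F5 A C D M = f3F F2 F4 F5 A D M - F4 - C := rfl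
  rw [e]
  exact Submodule.sub_mem _ (Submodule.sub_mem _ h3 h4) hC

private theorem hh_mem {m : ℕ} (hm : 1 ≤ m) (hb : Tw (gB : Pt m → Pt m))
    {F2 F4 F5 P A B C D M : Pt m → ℂ} (hE : eeF F2 F4 F5 A C D M ∈ anti13 m)
    (hP : P ∈ anti13 m) (hB : B ∈ anti13 m) : hhF F2 F4 F5 P A B C D M ∈ anti13 m := by
  have e : hhF F2 F4 F5 P A B C D M = P - B - (fun p => eeF F2 F4 F5 A C D M (gB p)) := rfl
  rw [e]
  exact Submodule.sub_mem _ (Submodule.sub_mem _ hP hB) (anti_tw hm hb hE)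

private theorem ww_mem {m : ℕ} (hm : 1 ≤ m) (hf : Ty 1 (gF : Pt m → Pt m))
    {F2 F4 F5 F6 P A B C D M : Pt m → ℂ} (hH : hhF F2 F4 F5 P A B C D M ∈ anti13 m)
    (h5 : F5 ∈ anti13 m) (h6 : F6 ∈ anti13 m) : wwF F2 F4 F5 F6 P A B C D M ∈ anti13 m := by
  have e : wwF F2 F4 F5 F6 P A B C D M = F5 - F6 + (fun p => hhF F2 F4 F5 P A B C D M (gF p)) := rfl
  rw [e]
  exact Submodule.add_mem _ (Submodule.sub_mem _ h5 h6) (anti_comp hm hf hH)

private theorem alt_mem {m n n' n'' : ℕ} (hm : 1 ≤ m) {r r' : Pt m → Pt m} (hk : Kl r r') (h : Ty n r)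
    (h' : Ty n' r') (h'' : Ty n'' (fun p => r (r' p))) {F : Pt m → ℂ} (hF : F ∈ anti13 m) :
    (fun p => alt r r' F p) ∈ inv13 (m := m) r r' (-1) 1 := by
  refine ⟨?_, fun p => ⟨?_, ?_⟩⟩
  · have e : (fun p => alt r r' F p) = F + (fun p => F (r' p)) - (fun p => F (r p)) -
      (fun p => F (r (r' p))) := rfl
    rw [e]
    exact Submodule.sub_mem _ (Submodule.sub_mem _ (Submodule.add_mem _ hF (anti_comp hm h' hF))
      (anti_comp hm h hF)) (anti_comp hm h'' hF)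
  · change alt r r' F (r p) = -1 * alt r r' F p
    unfold alt
    rw [← hk.2.2 p, hk.1 p, hk.1 (r' p)]
    ring
  · change alt r r' F (r' p) = 1 * alt r r' F p
    unfold alt
    rw [hk.2.1 p]
    ring

private theorem sm4_mem {m n n' n'' : ℕ} (hm : 1 ≤ m) {r r' : Pt m → Pt m} (hk : Kl r r') (h : Ty n r)
    (h' : Ty n' r') (h'' : Ty n'' (fun p => r (r' p))) {F : Pt m → ℂ} (hF : F ∈ anti13 m) :
    (fun p => sm4 r r' F p) ∈ inv13 (m := m) r r' 1 1 := by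
  refine ⟨?_, fun p => ⟨?_, ?_⟩⟩
  · have e : (fun p => sm4 r r' F p) = F + (fun p => F (r' p)) + (fun p => F (r p)) +
      (fun p => F (r (r' p))) := rfl
    rw [e]
    exact Submodule.add_mem _ (Submodule.add_mem _ (Submodule.add_mem _ hF (anti_comp hm h' hF))
      (anti_comp hm h hF)) (anti_comp hm h'' hF)
  · change sm4 r r' F (r p) = 1 * sm4 r r' F p
    unfold sm4
    rw [← hk.2.2 p, hk.1 p, hk.1 (r' p)]
    ring
  · change sm4 r r' F (r' p) = 1 * sm4 r r' F p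
    unfold sm4
    rw [hk.2.1 p]
    ring

private theorem sm6_mem {m : ℕ} (hm : 1 ≤ m) {r r' : Pt m → Pt m} (hd : DT r r') {F : Pt m → ℂ}
    (hF : F ∈ anti13 m) : (fun p => sm6 r r' F p) ∈ inv13 (m := m) r r' 1 1 := by
  obtain ⟨⟨d1, d2, d3⟩, t1, t2, t3, t4, t5⟩ := hd
  refine ⟨?_, fun p => ⟨?_, ?_⟩⟩
  · have e : (fun p => sm6 r r' F p) = F + (fun p => F (r p)) + (fun p => F (r' p)) +
      (fun p => F (r (r' p))) + (fun p => F (r' (r p))) + (fun p => F (r (r' (r p)))) := rfl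
    rw [e]
    exact Submodule.add_mem _ (Submodule.add_mem _ (Submodule.add_mem _ (Submodule.add_mem _
      (Submodule.add_mem _ hF (anti_comp hm t1 hF)) (anti_comp hm t2 hF)) (anti_comp hm t3 hF))
      (anti_comp hm t4 hF)) (anti_comp hm t5 hF)
  · change sm6 r r' F (r p) = 1 * sm6 r r' F p
    unfold sm6
    rw [d1 p]
    ring
  · change sm6 r r' F (r' p) = 1 * sm6 r r' F p
    unfold sm6
    rw [← d3 p, d1 (r' (r p)), d2 p]
    ring

/-- **Module DIME.** -/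
theorem hDimE : StHDimE := by
  intro ht hk hs m hm
  obtain ⟨⟨a1, a2, a3, a4⟩, -, -, -, ⟨c1, c2, c3, c4⟩, dT, ⟨g1, g2, g3, g4⟩,
    ⟨⟨M1, M2⟩, ⟨C1, C2⟩, ⟨D1, D2⟩, ⟨A1, A2⟩, ⟨B1, B2⟩, t9⟩, ⟨tM, tB, tF⟩, -⟩ := ht m
  obtain ⟨eV, q1, q2, q3⟩ := hk m hm
  have eM := q1 cM (-1) M1 M2 (Or.inr rfl)
  have eC := q1 cC (-1) C1 C2 (Or.inr rfl)
  have eD := q1 cD (-1) D1 D2 (Or.inr rfl)
  have eA := q1 rA 1 A1 A2 (Or.inl rfl)
  have eB := q1 rB 1 B1 B2 (Or.inl rfl)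
  have e0 := q2 ng sw 0 1 1 (-1) 1 a1 a2 a3 a4 (Or.inr rfl) (Or.inl rfl)
  have e6 := q2 (dR 1) c6 0 1 1 (-1) 1 c1 c2 c3 c4 (Or.inr rfl) (Or.inl rfl)
  have eQ := q2 cQ cR 1 1 0 1 1 g1 g2 g3 g4 (Or.inl rfl) (Or.inl rfl)
  have eT := q3 cT cU dT
  rw [n1] at eM eC eD
  rw [p1] at eA eB eQ
  rw [n1, p1] at e0 e6
  set VM := inv1 (m := m) cM (-1) with hVM
  set VC := inv1 (m := m) cC (-1) with hVC
  set VD := inv1 (m := m) cD (-1) with hVD
  set VA := inv1 (m := m) rA 1 with hVA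
  set VB := inv1 (m := m) rB 1 with hVB
  set T0 := inv13 (m := m) ng sw (-1) 1 with hT0
  set T6 := inv13 (m := m) (dR 1) c6 (-1) 1 with hT6
  set TD := inv13 (m := m) cT cU 1 1 with hTD
  set TQ := inv13 (m := m) cQ cR 1 1 with hTQ
  set Q : Fn11 m →ₗ[ℂ] (((Pt m → ℂ) × (Pt m → ℂ)) × ((Pt m → ℂ) × (Pt m → ℂ))) :=
    LinearMap.prod (LinearMap.prod K1 K2) (LinearMap.prod K3 K4) with hQ
  have hQa : ∀ F, Q F = ((K1 F, K2 F), (K3 F, K4 F)) := fun _ => rfl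
  have hmap : (((((anti13 m).prod (anti13 m)).prod ((anti13 m).prod (anti13 m))).prod
      (((anti13 m).prod (anti13 m)).prod (VA.prod VB))).prod ((VC.prod VD).prod VM)).map Q =
      (T0.prod T6).prod (TD.prod TQ) := by
    apply le_antisymm
    · rintro _ ⟨F, hF, rfl⟩
      obtain ⟨⟨⟨⟨h1, h2⟩, h4, h5⟩, ⟨h6, hP⟩, hA, hB⟩, ⟨hC, hD⟩, hM⟩ := hF
      rw [hQa]
      have z3 := f3_mem hm t9 tM h2 h4 h5 hA.1 hD.1 hM.1
      have zE := ee_mem z3 h4 hC.1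
      have zH := hh_mem hm tB zE hP hB.1
      have zW := ww_mem hm tF zH h5 h6
      exact ⟨⟨alt_mem hm a1 a2 a3 a4 h1, alt_mem hm c1 c2 c3 c4 h6⟩,
        ⟨sm6_mem hm dT (Submodule.sub_mem _ (Submodule.sub_mem _ h1 h2) hP),
          sm4_mem hm g1 g2 g3 g4 zW⟩⟩
    · rintro ⟨⟨φ, ψ⟩, ⟨χ, ω⟩⟩ ⟨⟨hφ, hψ⟩, ⟨hχ, hω⟩⟩
      simp only at hφ hψ hχ hω
      have k1 : ∀ p, φ (ng p) = -1 * φ p := fun p => (hφ.2 p).1
      have k2 : ∀ p, φ (sw p) = 1 * φ p := fun p => (hφ.2 p).2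
      have k3 : ∀ p, ψ (dR 1 p) = -1 * ψ p := fun p => (hψ.2 p).1
      have k4 : ∀ p, ψ (c6 p) = 1 * ψ p := fun p => (hψ.2 p).2
      have k5 : ∀ p, χ (cT p) = 1 * χ p := fun p => (hχ.2 p).1
      have k6 : ∀ p, χ (cU p) = 1 * χ p := fun p => (hχ.2 p).2
      have k7 : ∀ p, ω (cQ p) = 1 * ω p := fun p => (hω.2 p).1
      have k8 : ∀ p, ω (cR p) = 1 * ω p := fun p => (hω.2 p).2
      obtain ⟨v, hvd⟩ : ∃ v : Pt m → ℂ, v = ((6 : ℂ)⁻¹) • χ := ⟨_, rfl⟩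
      obtain ⟨w, hwd⟩ : ∃ w : Pt m → ℂ, w = ((4 : ℂ)⁻¹) • ω := ⟨_, rfl⟩
      obtain ⟨s, hsd⟩ : ∃ s : Pt m → ℂ, s = ((4 : ℂ)⁻¹) • φ := ⟨_, rfl⟩
      obtain ⟨t, htd⟩ : ∃ t : Pt m → ℂ, t = ((4 : ℂ)⁻¹) • ψ + v + w := ⟨_, rfl⟩
      have hv : v ∈ anti13 m := by
        rw [hvd]
        exact Submodule.smul_mem _ _ hχ.1
      have hw : w ∈ anti13 m := by
        rw [hwd]
        exact Submodule.smul_mem _ _ hω.1
      have hs' : s ∈ anti13 m := by
        rw [hsd]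
        exact Submodule.smul_mem _ _ hφ.1
      have ht' : t ∈ anti13 m := by
        rw [htd]
        exact Submodule.add_mem _ (Submodule.add_mem _ (Submodule.smul_mem _ _ hψ.1) hv) hw
      have hvp : ∀ p, v p = 6⁻¹ * χ p := fun p => by rw [hvd]; rfl
      have hwp : ∀ p, w p = 4⁻¹ * ω p := fun p => by rw [hwd]; rfl
      have hsp : ∀ p, s p = 4⁻¹ * φ p := fun p => by rw [hsd]; rfl
      have htp : ∀ p, t p = 4⁻¹ * ψ p + v p + w p := fun p => by rw [htd]; rfl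
      obtain ⟨f1, hf1, l1, hl1, fn1, ld1, uu⟩ := hs 1 m hm s hs'
      obtain ⟨f2, hf2, l2, hl2, fn2, ld2, vv⟩ := hs 1 m hm t ht'
      have hG : l1 + f2 ∈ anti13 m := Submodule.add_mem _ hl1 hf2
      have hG1 : l1 + f2 - v ∈ anti13 m := Submodule.sub_mem _ hG hv
      have hG2 : l1 + f2 - v - w ∈ anti13 m := Submodule.sub_mem _ hG1 hw
      refine ⟨((((l1 + f2, l1 + f2 - v), (l1 + f2 - v, l1 + f2 - v)), ((l1 + f2 - v - w, 0), (0, 0))),
          ((0, 0), 0)),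
        ⟨⟨⟨⟨hG, hG1⟩, hG1, hG1⟩, ⟨hG2, Submodule.zero_mem _⟩, Submodule.zero_mem _,
          Submodule.zero_mem _⟩, ⟨Submodule.zero_mem _, Submodule.zero_mem _⟩,
          Submodule.zero_mem _⟩, ?_⟩
      rw [hQa, Prod.mk.injEq, Prod.mk.injEq, Prod.mk.injEq]
      refine ⟨⟨?_, ?_⟩, ?_, ?_⟩
      · funext p
        rw [K1_apply]
        simp only [alt, Pi.add_apply]
        have z1 := uu p
        have z2 := uu (sw p)
        have z3 := uu (ng p)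
        have z4 := uu (ng (sw p))
        rw [hsp] at z1 z2 z3 z4
        rw [k2] at z2
        rw [k1, fn1] at z3
        rw [k1, k2, fn1] at z4
        rw [fn2 p, fn2 (sw p)]
        linear_combination z1 + z2 - z3 - z4
      · funext p
        rw [K2_apply]
        simp only [alt, Pi.add_apply, Pi.sub_apply]
        have z1 := vv p
        have z2 := vv (c6 p)
        have z3 := vv (dR 1 p)
        have z4 := vv (dR 1 (c6 p))
        rw [htp] at z1 z2 z3 z4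
        rw [k4] at z2
        rw [k3, ld2] at z3
        rw [k3, k4, ld2] at z4
        rw [ld1 p, ld1 (c6 p)]
        linear_combination z1 + z2 - z3 - z4
      · funext p
        rw [K3_apply]
        simp only [sm6, Pi.add_apply, Pi.sub_apply, Pi.zero_apply]
        have y1 := hvp p
        have y2 := hvp (cT p)
        have y3 := hvp (cU p)
        have y4 := hvp (cT (cU p))
        have y5 := hvp (cU (cT p))
        have y6 := hvp (cT (cU (cT p)))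
        rw [k5] at y2
        rw [k6] at y3
        rw [k5, k6] at y4
        rw [k6, k5] at y5
        rw [k5, k6, k5] at y6
        linear_combination y1 + y2 + y3 + y4 + y5 + y6
      · funext p
        rw [K4_apply]
        simp only [sm4, wwF, hhF, eeF, f3F, Pi.add_apply, Pi.sub_apply, Pi.zero_apply]
        have y1 := hwp p
        have y2 := hwp (cR p)
        have y3 := hwp (cQ p)
        have y4 := hwp (cQ (cR p))
        rw [k8] at y2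
        rw [k7] at y3
        rw [k7, k8] at y4
        linear_combination y1 + y2 + y3 + y4
  have hker : (((((anti13 m).prod (anti13 m)).prod ((anti13 m).prod (anti13 m))).prod
      (((anti13 m).prod (anti13 m)).prod (VA.prod VB))).prod ((VC.prod VD).prod VM)) ⊓
      LinearMap.ker Q = subE m := by
    ext F
    constructor
    · rintro ⟨⟨⟨⟨⟨h1, h2⟩, h4, h5⟩, ⟨h6, hP⟩, hA, hB⟩, ⟨hC, hD⟩, hM⟩, h13⟩
      rw [SetLike.mem_coe, LinearMap.mem_ker, hQa, Prod.mk_eq_zero, Prod.mk_eq_zero,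
        Prod.mk_eq_zero] at h13
      obtain ⟨⟨k1, k2⟩, k3, k4⟩ := h13
      exact ⟨⟨h1, h2, h4, h5⟩, ⟨h6, hP, hA, hB⟩, ⟨hC, hD, hM⟩, fun p => congrFun k1 p,
        fun p => congrFun k2 p, fun p => congrFun k3 p, fun p => congrFun k4 p⟩
    · rintro ⟨⟨h1, h2, h4, h5⟩, ⟨h6, hP, hA, hB⟩, ⟨hC, hD, hM⟩, k1, k2, k3, k4⟩
      refine ⟨⟨⟨⟨⟨h1, h2⟩, h4, h5⟩, ⟨h6, hP⟩, hA, hB⟩, ⟨hC, hD⟩, hM⟩, ?_⟩
      rw [SetLike.mem_coe, LinearMap.mem_ker, hQa, Prod.mk_eq_zero, Prod.mk_eq_zero,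
        Prod.mk_eq_zero]
      exact ⟨⟨funext k1, funext k2⟩, funext k3, funext k4⟩
  have i1 : FiniteDimensional ℂ ((Pt m → ℂ) × (Pt m → ℂ)) := inferInstance
  have i2 : FiniteDimensional ℂ (((Pt m → ℂ) × (Pt m → ℂ)) × ((Pt m → ℂ) × (Pt m → ℂ))) :=
    Module.Finite.prod
  have i3 : FiniteDimensional ℂ ((((Pt m → ℂ) × (Pt m → ℂ)) × ((Pt m → ℂ) × (Pt m → ℂ))) ×
      (((Pt m → ℂ) × (Pt m → ℂ)) × ((Pt m → ℂ) × (Pt m → ℂ)))) := Module.Finite.prod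
  have i5 : FiniteDimensional ℂ (((Pt m → ℂ) × (Pt m → ℂ)) × (Pt m → ℂ)) := Module.Finite.prod
  have i4 : FiniteDimensional ℂ (Fn11 m) := Module.Finite.prod
  have h6 := rn Q (((((anti13 m).prod (anti13 m)).prod ((anti13 m).prod (anti13 m))).prod
      (((anti13 m).prod (anti13 m)).prod (VA.prod VB))).prod ((VC.prod VD).prod VM))
  rw [hmap, hker] at h6
  simp only [fr_prod] at h6
  have hba : 13 ^ (m - 1) ≤ 169 ^ (m - 1) := Nat.pow_le_pow_left (by norm_num) _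
  obtain ⟨a, ha⟩ : ∃ a : ℕ, a = 169 ^ (m - 1) := ⟨_, rfl⟩
  obtain ⟨b, hb⟩ : ∃ b : ℕ, b = 13 ^ (m - 1) := ⟨_, rfl⟩
  have haz : (169 : ℤ) ^ (m - 1) = (a : ℤ) := by rw [ha]; push_cast; rfl
  have hbz : (13 : ℤ) ^ (m - 1) = (b : ℤ) := by rw [hb]; push_cast; rfl
  rw [haz, hbz] at eM eC eD eA eB e0 e6 eQ
  rw [← ha] at eV
  rw [← ha, ← hb] at eT
  rw [← ha, ← hb] at hba ⊢
  push_cast at e0 e6 eQ
  omega

end Pool.Agent.Helper9.P13
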